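import Pool.Agent.Helper63.ST.Defs

set_option autoImplicit false

namespace Pool.Agent.ST

open DirectSum

/-- ST-11a -/
theorem pmin_bilinear {B C D : Type} [AddCommGroup B] [AddCommGroup C] [AddCommGroup D]
    (β : B →+ C →+ D) (hβ : AddSubgroup.closure {d | ∃ b c, β b c = d} = ⊤) {m : ℕ}
    (hB : PMin m B) (hC : PMin m C) : PMin m D := by
  classical
  obtain ⟨sB, hsB⟩ := hB
  obtain ⟨sC, hsC⟩ := hC
  let sD : Finset D := (sB ×ˢ sC).image fun p => β p.1 p.2
  refine ⟨sD, ?_⟩
  have h1 : ∀ b ∈ AddSubgroup.closure (sB : Set B), ∀ c ∈ AddSubgroup.closure (sC : Set C),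
      β b c ∈ AddSubgroup.closure (sD : Set D) := by
    intro b hb
    induction hb using AddSubgroup.closure_induction with
    | mem b hb =>
      intro c hc
      induction hc using AddSubgroup.closure_induction with
      | mem c hc =>
        apply AddSubgroup.subset_closure
        rw [Finset.mem_coe, Finset.mem_image]
        exact ⟨(b, c), Finset.mem_product.mpr ⟨hb, hc⟩, rfl⟩
      | zero => rw [map_zero]; exact AddSubgroup.zero_mem _
      | add x y _ _ hx hy => rw [map_add]; exact AddSubgroup.add_mem _ hx hy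
      | neg x _ hx => rw [map_neg]; exact AddSubgroup.neg_mem _ hx
    | zero =>
      intro c _
      rw [map_zero, AddMonoidHom.zero_apply]
      exact AddSubgroup.zero_mem _
    | add x y _ _ hx hy =>
      intro c hc
      rw [map_add, AddMonoidHom.add_apply]
      exact AddSubgroup.add_mem _ (hx c hc) (hy c hc)
    | neg x _ hx =>
      intro c hc
      rw [map_neg, AddMonoidHom.neg_apply]
      exact AddSubgroup.neg_mem _ (hx c hc)
  let E : AddSubgroup D :=
    { carrier := {d | ∃ j : ℕ, m ^ j • d ∈ AddSubgroup.closure (sD : Set D)}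
      zero_mem' := ⟨0, by rw [smul_zero]; exact AddSubgroup.zero_mem _⟩
      add_mem' := by
        rintro a b ⟨j, hj⟩ ⟨k, hk⟩
        refine ⟨j + k, ?_⟩
        rw [smul_add]
        refine AddSubgroup.add_mem _ ?_ ?_
        · rw [pow_add, mul_comm, mul_smul]
          exact AddSubgroup.nsmul_mem _ hj _
        · rw [pow_add, mul_smul]
          exact AddSubgroup.nsmul_mem _ hk _
      neg_mem' := by
        rintro a ⟨j, hj⟩
        refine ⟨j, ?_⟩
        rw [smul_neg]
        exact AddSubgroup.neg_mem _ hj }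
  have h2 : AddSubgroup.closure {d | ∃ b c, β b c = d} ≤ E := by
    rw [AddSubgroup.closure_le]
    rintro d ⟨b, c, rfl⟩
    obtain ⟨j, hj⟩ := hsB b
    obtain ⟨k, hk⟩ := hsC c
    refine ⟨j + k, ?_⟩
    have := h1 _ hj _ hk
    have e : β (m ^ j • b) (m ^ k • c) = m ^ (j + k) • β b c := by
      rw [map_nsmul, map_nsmul, AddMonoidHom.nsmul_apply, smul_smul, ← pow_add, add_comm]
    rwa [e] at this
  intro d
  have : d ∈ E := h2 (hβ ▸ AddSubgroup.mem_top d)
  exact this

/-- the torsion of a f.g. abelian group has bounded exponent -/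
theorem ST11.torsion_bound (A : Type) [AddCommGroup A] [AddGroup.FG A] :
    ∃ e : ℕ, 0 < e ∧ ∀ (a : A) (n : ℕ), 0 < n → n • a = 0 → e • a = 0 := by
  obtain ⟨n, ι, _, p, hp, e, ⟨f⟩⟩ := AddCommGroup.equiv_free_prod_directSum_zmod A
  classical
  refine ⟨∏ i, p i ^ e i, Finset.prod_pos fun i _ => pow_pos (hp i).pos _, ?_⟩
  intro a m hm h
  have h1 : m • (f a).1 = 0 := by
    rw [← Prod.smul_fst, ← map_nsmul, h, map_zero, Prod.fst_zero]
  have h2 : (f a).1 = 0 := by
    rcases smul_eq_zero.mp h1 with h2 | h2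
    · omega
    · exact h2
  apply f.injective
  rw [map_nsmul, map_zero]
  apply Prod.ext
  · rw [Prod.smul_fst, h2, smul_zero, Prod.fst_zero]
  · rw [Prod.smul_snd, Prod.snd_zero]
    ext i
    rw [DirectSum.smul_apply, DirectSum.zero_apply]
    obtain ⟨k, hk⟩ : p i ^ e i ∣ ∏ i, p i ^ e i := Finset.dvd_prod_of_mem _ (Finset.mem_univ i)
    rw [hk, mul_comm, mul_smul]
    have : (p i ^ e i) • ((f a).2 i) = 0 := by
      rw [nsmul_eq_mul, ZMod.natCast_self, zero_mul]
    rw [this, smul_zero]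

theorem ST11.eq_zero_of_coprime {A : Type} [AddCommGroup A] {a : A} {m n : ℕ}
    (hmn : Nat.Coprime m n) (hm : m • a = 0) (hn : n • a = 0) : a = 0 := by
  have h1 : addOrderOf a ∣ m := addOrderOf_dvd_of_nsmul_eq_zero hm
  have h2 : addOrderOf a ∣ n := addOrderOf_dvd_of_nsmul_eq_zero hn
  have h3 : addOrderOf a ∣ 1 := by
    have := Nat.dvd_gcd h1 h2
    rwa [Nat.Coprime.gcd_eq_one hmn] at this
  rw [Nat.dvd_one, AddMonoid.addOrderOf_eq_one_iff] at h3
  exact h3

/-- ST-11b -/
theorem PMin.no_torsion {B : Type} [AddCommGroup B] {m : ℕ} (hm : 0 < m) (hB : PMin m B) :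
    ∃ P : Finset ℕ, ∀ p : ℕ, p.Prime → p ∉ P → ∀ b : B, p • b = 0 → b = 0 := by
  obtain ⟨s, hs⟩ := hB
  have hfg : AddGroup.FG (AddSubgroup.closure (s : Set B)) :=
    (AddGroup.fg_iff_addSubgroup_fg _).2 ⟨s, rfl⟩
  obtain ⟨e, he, htor⟩ := ST11.torsion_bound (AddSubgroup.closure (s : Set B))
  refine ⟨(m * e).primeFactors, fun p hp hpP b hb => ?_⟩
  have hpme : ¬ p ∣ m * e := by
    intro h
    exact hpP (Nat.mem_primeFactors.2 ⟨hp, h, (Nat.mul_pos hm he).ne'⟩)
  have hcm : Nat.Coprime p m := (Nat.Prime.coprime_iff_not_dvd hp).2 fun h =>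
    hpme (dvd_mul_of_dvd_left h _)
  have hce : Nat.Coprime p e := (Nat.Prime.coprime_iff_not_dvd hp).2 fun h =>
    hpme (dvd_mul_of_dvd_right h _)
  obtain ⟨j, hj⟩ := hs b
  have h1 : p • (m ^ j • b) = 0 := by rw [smul_comm, hb, smul_zero]
  have h2 : e • (m ^ j • b) = 0 := by
    have := htor ⟨m ^ j • b, hj⟩ p hp.pos (Subtype.ext h1)
    exact congrArg Subtype.val this
  have h3 : m ^ j • b = 0 := ST11.eq_zero_of_coprime hce h1 h2
  exact ST11.eq_zero_of_coprime (Nat.Coprime.pow_right j hcm) hb h3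

end Pool.Agent.ST
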